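import Mathlib

set_option autoImplicit false
open Set Topology

namespace Pool.Agent.CpD


/-- The function space. -/
abbrev G (X : Type) [TopologicalSpace X] := {f : X → Bool // Continuous f}

variable {X : Type} [TopologicalSpace X]

/-- agreement on a finite set -/
def Agr (e : Finset X) (f g : G X) : Prop := ∀ x ∈ e, f.1 x = g.1 x

lemma Agr.refl (e : Finset X) (f : G X) : Agr e f f := fun _ _ => rfl

lemma Agr.symm {e : Finset X} {f g : G X} (h : Agr e f g) : Agr e g f :=
  fun x hx => (h x hx).symm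

lemma Agr.trans {e : Finset X} {f g h : G X} (h1 : Agr e f g) (h2 : Agr e g h) : Agr e f h :=
  fun x hx => (h1 x hx).trans (h2 x hx)

lemma Agr.mono {e e' : Finset X} {f g : G X} (hee : e ⊆ e') (h : Agr e' f g) : Agr e f g :=
  fun x hx => h x (hee hx)

lemma isOpen_agr (e : Finset X) (g : G X) : IsOpen {f : G X | Agr e f g} := by
  have : {f : G X | Agr e f g} = ⋂ x ∈ e, {f : G X | f.1 x = g.1 x} := by
    ext f; simp [Agr]
  rw [this]
  apply isOpen_biInter_finset
  intro x _
  have hc : Continuous (fun f : G X => f.1 x) := (continuous_apply x).comp continuous_subtype_val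
  exact (isOpen_discrete {g.1 x}).preimage hc

lemma exists_agr_of_isOpen {U : Set (G X)} (hU : IsOpen U) {g : G X} (hg : g ∈ U) :
    ∃ e : Finset X, ∀ f, Agr e f g → f ∈ U := by
  obtain ⟨U', hU', rfl⟩ := isOpen_induced_iff.1 hU
  rw [isOpen_pi_iff] at hU'
  obtain ⟨I, u, h1, h2⟩ := hU' g.1 hg
  refine ⟨I, fun f hf => h2 ?_⟩
  intro i hi
  rw [hf i hi]
  exact (h1 i hi).2

lemma mem_closure_iff_agr {D : Set (G X)} {g : G X} :
    g ∈ closure D ↔ ∀ e : Finset X, ∃ f ∈ D, Agr e f g := by
  rw [mem_closure_iff]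
  constructor
  · intro h e
    obtain ⟨f, hf, hfD⟩ := h _ (isOpen_agr e g) (Agr.refl e g)
    exact ⟨f, hfD, hf⟩
  · intro h U hU hgU
    obtain ⟨e, he⟩ := exists_agr_of_isOpen hU hgU
    obtain ⟨f, hfD, hf⟩ := h e
    exact ⟨f, he f hf, hfD⟩

/-- indicator of a clopen set -/
noncomputable def ind (V : Set X) (hV : IsClopen V) : G X :=
  ⟨V.boolIndicator, (continuous_boolIndicator_iff_isClopen V).2 hV⟩

lemma exists_agr [CompactSpace X] [T2Space X] [TotallyDisconnectedSpace X]
    (e : Finset X) (y : X → Bool) : ∃ g : G X, ∀ x ∈ e, g.1 x = y x := by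
  classical
  have h1 : IsClosed ((e.filter (fun x => y x = true) : Finset X) : Set X) :=
    (Finset.finite_toSet _).isClosed
  have h0 : IsOpen ((e.filter (fun x => y x = false) : Finset X) : Set X)ᶜ :=
    (Finset.finite_toSet _).isClosed.isOpen_compl
  have hsub : ((e.filter (fun x => y x = true) : Finset X) : Set X) ⊆
      ((e.filter (fun x => y x = false) : Finset X) : Set X)ᶜ := by
    intro x hx
    simp only [Finset.coe_filter, mem_ofPred_eq] at hx
    simp only [Finset.coe_filter, mem_compl_iff, mem_ofPred_eq, not_and]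
    intro _; rw [hx.2]; simp
  obtain ⟨C, hC, hC1, hC2⟩ := exists_clopen_of_closed_subset_open h1 h0 hsub
  refine ⟨ind C hC, fun x hx => ?_⟩
  cases hy : y x with
  | true =>
    have : x ∈ C := hC1 (by simp [hx, hy])
    simp [ind, Set.boolIndicator, this]
  | false =>
    have : x ∉ C := fun hxC => hC2 hxC (by simp [hx, hy])
    simp [ind, Set.boolIndicator, this]

open MeasureTheory in
/-- countable chain condition -/
lemma ccc [CompactSpace X] [T2Space X] [TotallyDisconnectedSpace X]
    (M : Set (Finset X × G X))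
    (hM : ∀ m ∈ M, ∀ m' ∈ M, m ≠ m' → ¬ ∃ h : G X, Agr m.1 h m.2 ∧ Agr m'.1 h m'.2) :
    M.Countable := by
  classical
  let μ : Measure (X → Bool) := Measure.infinitePi (fun _ : X => (PMF.uniformOfFintype Bool).toMeasure)
  let As : M → Set (X → Bool) := fun m => Set.pi (m.1.1 : Set X) (fun x => {m.1.2.1 x})
  have hmeas : ∀ m : M, MeasurableSet (As m) := fun m =>
    MeasurableSet.pi (Finset.countable_toSet _) (fun _ _ => MeasurableSet.of_discrete)
  have hdisj : Pairwise (Function.onFun Disjoint As) := by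
    intro m m' hmm
    rw [Function.onFun, Set.disjoint_left]
    intro y hy hy'
    obtain ⟨g, hg⟩ := exists_agr (m.1.1 ∪ m'.1.1) y
    refine hM m.1 m.2 m'.1 m'.2 (fun h => hmm (Subtype.ext h)) ⟨g, ?_, ?_⟩
    · intro x hx
      rw [hg x (Finset.mem_union_left _ hx)]
      exact hy x hx
    · intro x hx
      rw [hg x (Finset.mem_union_right _ hx)]
      exact hy' x hx
  have hpos : ∀ m : M, 0 < μ (As m) := by
    intro m
    show 0 < (Measure.infinitePi (fun _ : X => (PMF.uniformOfFintype Bool).toMeasure)) (As m)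
    rw [Measure.infinitePi_pi _ (fun _ _ => MeasurableSet.of_discrete)]
    rw [pos_iff_ne_zero, Finset.prod_ne_zero_iff]
    intro x _
    rw [PMF.toMeasure_apply_singleton _ _ (MeasurableSet.of_discrete)]
    simp
  have := Measure.countable_meas_pos_of_disjoint_iUnion (μ := μ) hmeas hdisj
  have h2 : (Set.univ : Set M).Countable := by
    refine this.mono ?_
    intro m _
    exact hpos m
  rw [Set.countable_univ_iff] at h2
  exact h2

/-- The separation criterion. -/
theorem criterion [CompactSpace X] [T2Space X] [TotallyDisconnectedSpace X]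
    [NormalSpace (G X)] {P Q : Set (G X)} (hP : IsClosed P) (hQ : IsClosed Q)
    (hPQ : Disjoint P Q) :
    ∃ S : Set X, S.Countable ∧ ∀ p ∈ P, ∃ e : Finset X, (e : Set X) ⊆ S ∧
      ∀ q ∈ Q, ¬ Agr e q p := by
  classical
  obtain ⟨U, V, hU, hV, hPU, hQV, hUV⟩ := normal_separation hP hQ hPQ
  -- maximal family of pairwise incompatible basic sets inside `U`
  let PP : Set (Set (Finset X × G X)) := {M | (∀ m ∈ M, ∀ h, Agr m.1 h m.2 → h ∈ U) ∧
    ∀ m ∈ M, ∀ m' ∈ M, m ≠ m' → ¬ ∃ h : G X, Agr m.1 h m.2 ∧ Agr m'.1 h m'.2}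
  obtain ⟨M, hM⟩ := zorn_subset PP (by
    intro c hc hchain
    refine ⟨⋃₀ c, ⟨?_, ?_⟩, fun s hs => Set.subset_sUnion_of_mem hs⟩
    · rintro m ⟨s, hs, hm⟩
      exact (hc hs).1 m hm
    · rintro m ⟨s, hs, hm⟩ m' ⟨s', hs', hm'⟩ hne
      rcases hchain.total hs hs' with h | h
      · exact (hc hs').2 m (h hm) m' hm' hne
      · exact (hc hs).2 m hm m' (h hm') hne)
  have hMP := hM.prop
  have hcount := ccc M hMP.2
  refine ⟨⋃ m ∈ M, (m.1 : Set X), hcount.biUnion (fun m _ => Finset.countable_toSet _), ?_⟩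
  intro p hp
  obtain ⟨e, he⟩ := exists_agr_of_isOpen hU (hPU hp)
  refine ⟨e.filter (fun x => x ∈ ⋃ m ∈ M, (m.1 : Set X)), ?_, ?_⟩
  · intro x hx
    simp only [Finset.coe_filter, mem_ofPred_eq] at hx
    exact hx.2
  intro q hq hagr
  obtain ⟨e2, he2⟩ := exists_agr_of_isOpen hV (hQV hq)
  set S := ⋃ m ∈ M, (m.1 : Set X) with hS
  -- h0 = p on e, = q on e2 ∩ S
  obtain ⟨h0, hh0⟩ := exists_agr (e ∪ e2.filter (fun x => x ∈ S))
    (fun x => if x ∈ e then p.1 x else q.1 x)
  have h0e : Agr e h0 p := by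
    intro x hx
    rw [hh0 x (Finset.mem_union_left _ hx), if_pos hx]
  have h0q : ∀ x ∈ e2, x ∈ S → h0.1 x = q.1 x := by
    intro x hx hxS
    rw [hh0 x (Finset.mem_union_right _ (Finset.mem_filter.2 ⟨hx, hxS⟩))]
    split_ifs with h
    · exact (hagr x (Finset.mem_filter.2 ⟨h, hxS⟩)).symm
    · rfl
  -- by maximality
  have hex : ∃ m ∈ M, ∃ h1 : G X, Agr (e ∪ e2.filter (fun x => x ∈ S)) h1 h0 ∧ Agr m.1 h1 m.2 := by
    by_contra hcon
    push Not at hcon
    have hnew : insert (e ∪ e2.filter (fun x => x ∈ S), h0) M ∈ PP := by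
      constructor
      · rintro m (rfl | hm) h hh
        · exact he h ((hh.mono Finset.subset_union_left).trans h0e)
        · exact hMP.1 m hm h hh
      · rintro m (rfl | hm) m' (rfl | hm') hne
        · exact absurd rfl hne
        · rintro ⟨h, hh1, hh2⟩
          exact hcon m' hm' h hh1 hh2
        · rintro ⟨h, hh1, hh2⟩
          exact hcon m hm h hh2 hh1
        · exact hMP.2 m hm m' hm' hne
    have hmem : (e ∪ e2.filter (fun x => x ∈ S), h0) ∈ M := by
      have := hM.eq_of_subset hnew (Set.subset_insert _ _)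
      rw [this]; exact Set.mem_insert _ _
    exact hcon _ hmem h0 (Agr.refl _ _) (Agr.refl _ _)
  obtain ⟨m, hm, h1, hh1, hh1'⟩ := hex
  have hmS : ∀ x ∈ m.1, x ∈ S := fun x hx => Set.mem_biUnion hm hx
  -- h2 = m.2 on m.1, = q on e2
  obtain ⟨h2, hh2⟩ := exists_agr (m.1 ∪ e2) (fun x => if x ∈ m.1 then m.2.1 x else q.1 x)
  have h2m : Agr m.1 h2 m.2 := by
    intro x hx
    rw [hh2 x (Finset.mem_union_left _ hx), if_pos hx]
  have h2q : Agr e2 h2 q := by
    intro x hx
    rw [hh2 x (Finset.mem_union_right _ hx)]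
    split_ifs with h
    · rw [← hh1' x h, hh1 x (Finset.mem_union_right _ (Finset.mem_filter.2 ⟨hx, hmS x h⟩)),
        h0q x hx (hmS x h)]
    · rfl
  exact Set.disjoint_left.1 hUV (hMP.1 m hm h2 h2m) (he2 h2 h2q)




/-- `g` is determined by the functions in `F` -/
def Det (F : Finset (G X)) (g : G X) : Prop :=
  ∀ x y : X, (∀ f ∈ F, f.1 x = f.1 y) → g.1 x = g.1 y

/-- functions determined by finitely many elements of `D` -/
def FD (D : Set (G X)) : Set (G X) := {g | ∃ F : Finset (G X), (F : Set (G X)) ⊆ D ∧ Det F g}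

lemma subset_FD (D : Set (G X)) : D ⊆ FD D := by
  intro g hg
  exact ⟨{g}, by simpa using hg, fun x y h => h g (by simp)⟩

lemma FD_mono {D D' : Set (G X)} (h : D ⊆ D') : FD D ⊆ FD D' := by
  rintro g ⟨F, hF, hg⟩
  exact ⟨F, hF.trans h, hg⟩

lemma FD_FD {D D' : Set (G X)} (h : D' ⊆ FD D) : FD D' ⊆ FD D := by
  classical
  rintro g ⟨F, hF, hg⟩
  have h1 : ∀ f : F, ∃ F' : Finset (G X), (F' : Set (G X)) ⊆ D ∧ Det F' f.1 := fun f =>
    h (hF f.2)
  choose F' hF' hdet using h1
  refine ⟨F.attach.biUnion F', ?_, ?_⟩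
  · intro a ha
    rw [Finset.mem_coe, Finset.mem_biUnion] at ha
    obtain ⟨f, _, hf⟩ := ha
    exact hF' f hf
  · intro x y hxy
    apply hg
    intro f hf
    apply hdet ⟨f, hf⟩
    intro a ha
    exact hxy a (Finset.mem_biUnion.2 ⟨⟨f, hf⟩, Finset.mem_attach _ _, ha⟩)

lemma det_finite (F : Finset (G X)) : {g : G X | Det F g}.Finite := by
  classical
  let Φ : X → (F → Bool) := fun x f => f.1.1 x
  let Ψ : G X → Set (F → Bool) := fun g => Φ '' {x | g.1 x = true}
  apply Set.Finite.of_finite_image (f := Ψ) (Set.toFinite _)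
  have key : ∀ g g' : G X, Det F g' → Ψ g = Ψ g' → ∀ x, g.1 x = true → g'.1 x = true := by
    intro g g' hg' h x hx
    have : Φ x ∈ Ψ g' := by rw [← h]; exact ⟨x, hx, rfl⟩
    obtain ⟨x', hx', hxx⟩ := this
    rw [← hx']
    apply hg'
    intro f hf
    exact (congrFun hxx ⟨f, hf⟩).symm
  intro g hg g' hg' h
  apply Subtype.ext
  funext x
  have h1 := key g g' hg' h x
  have h2 := key g' g hg h.symm x
  cases hx : g.1 x with
  | true => rw [h1 hx]
  | false =>
    cases hx' : g'.1 x with
    | true => rw [h2 hx'] at hx; exact absurd hx (by simp)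
    | false => rfl

lemma FD_countable {D : Set (G X)} (hD : D.Countable) : (FD D).Countable := by
  have : FD D = ⋃ F ∈ {F : Finset (G X) | (F : Set (G X)) ⊆ D}, {g : G X | Det F g} := by
    ext g; simp [FD]
  rw [this]
  apply Set.Countable.biUnion
  · have h1 := (countable_ofPred_finite_subset hD).preimage
      (f := fun F : Finset (G X) => (F : Set (G X))) Finset.coe_injective
    refine h1.mono ?_
    intro F hF
    exact ⟨F.finite_toSet, hF⟩
  · intro F _
    exact (det_finite F).countable

lemma closure_subset_FD [CompactSpace X] (D : Set (G X)) (g : G X)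
    (h : ∀ e : Finset X, ∃ f ∈ D, Agr e f g) : g ∈ FD D := by
  classical
  have hop : ∀ f : D, IsOpen {p : X × X | f.1.1 p.1 = g.1 p.1 ∧ f.1.1 p.2 = g.1 p.2} := by
    intro f
    have hf := f.1.2
    have hg := g.2
    apply IsOpen.inter
    · exact isOpen_discrete {b : Bool × Bool | b.1 = b.2} |>.preimage
        ((hf.comp continuous_fst).prodMk (hg.comp continuous_fst))
    · exact isOpen_discrete {b : Bool × Bool | b.1 = b.2} |>.preimage
        ((hf.comp continuous_snd).prodMk (hg.comp continuous_snd))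
  obtain ⟨t, ht⟩ := (isCompact_univ (X := X × X)).elim_finite_subcover _ hop (by
    rintro ⟨x, y⟩ _
    obtain ⟨f, hf, hagr⟩ := h {x, y}
    rw [Set.mem_iUnion]
    exact ⟨⟨f, hf⟩, hagr x (by simp), hagr y (by simp)⟩)
  refine ⟨t.image Subtype.val, ?_, ?_⟩
  · intro f hf
    rw [Finset.mem_coe, Finset.mem_image] at hf
    obtain ⟨a, _, rfl⟩ := hf
    exact a.2
  · intro x y hxy
    have := ht (Set.mem_univ (x, y))
    rw [Set.mem_iUnion] at this
    obtain ⟨f, hf⟩ := this
    rw [Set.mem_iUnion] at hf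
    obtain ⟨hft, h1, h2⟩ := hf
    have := hxy f.1 (Finset.mem_image.2 ⟨f, hft, rfl⟩)
    simp only at h1 h2
    rw [← h1, ← h2, this]

/-- locally finite set (closed discrete) -/
def LF (D : Set (G X)) : Prop := ∀ h : G X, ∃ e : Finset X, {f | f ∈ D ∧ Agr e f h}.Finite

/-- closed discrete, strong form -/
def CD (D : Set (G X)) : Prop := ∀ h : G X, ∃ e : Finset X, ∀ f ∈ D, Agr e f h → f = h

lemma LF.cd {D : Set (G X)} (hD : LF D) : CD D := by
  classical
  intro h
  obtain ⟨e, he⟩ := hD h
  have hsep : ∀ f : G X, f ≠ h → ∃ x, f.1 x ≠ h.1 x := by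
    intro f hf
    by_contra hcon
    push Not at hcon
    exact hf (Subtype.ext (funext hcon))
  have : ∀ f : G X, ∃ x : Finset X, f ≠ h → ∃ z ∈ x, f.1 z ≠ h.1 z := by
    intro f
    by_cases hf : f = h
    · exact ⟨∅, fun h' => absurd hf h'⟩
    · obtain ⟨x, hx⟩ := hsep f hf
      exact ⟨{x}, fun _ => ⟨x, by simp, hx⟩⟩
  choose z hz using this
  refine ⟨e ∪ he.toFinset.biUnion z, ?_⟩
  intro f hf hagr
  by_contra hne
  obtain ⟨x, hx, hxne⟩ := hz f hne
  apply hxne
  apply hagr
  apply Finset.mem_union_right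
  rw [Finset.mem_biUnion]
  exact ⟨f, he.mem_toFinset.2 ⟨hf, hagr.mono Finset.subset_union_left⟩, hx⟩

lemma CD.isClosed {D : Set (G X)} (hD : CD D) {B : Set (G X)} (hB : B ⊆ D) : IsClosed B := by
  rw [← isOpen_compl_iff, isOpen_iff_forall_mem_open]
  intro h hh
  obtain ⟨e, he⟩ := hD h
  refine ⟨_, ?_, isOpen_agr e h, Agr.refl e h⟩
  intro f hf hfB
  have := he f (hB hfB) hf
  subst this
  exact hh hfB

/-- the set covered by the assignment -/
def Nb (d : G X → Finset X) (D : Set (G X)) : Set (G X) := {g | ∃ f ∈ D, Agr (d f) g f}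

lemma subset_Nb (d : G X → Finset X) (D : Set (G X)) : D ⊆ Nb d D := fun g hg => ⟨g, hg, Agr.refl _ _⟩

lemma Nb_mono (d : G X → Finset X) {D D' : Set (G X)} (h : D ⊆ D') : Nb d D ⊆ Nb d D' := by
  rintro g ⟨f, hf, hg⟩
  exact ⟨f, h hf, hg⟩

/-- extension step -/
lemma ext_step [CompactSpace X] (d : G X → Finset X) (D : Set (G X)) (hD : D.Countable)
    (hLF : LF D) (g : G X) (hg : g ∉ Nb d D) :
    ∃ D' : Set (G X), insert g D ⊆ D' ∧ LF D' ∧ FD D' ⊆ Nb d D' ∧
      ∀ f ∈ D', f ∉ D → f ∉ Nb d D := by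
  classical
  set D0 := insert g D with hD0
  have hD0c : D0.Countable := hD.insert g
  have hBc := FD_countable hD0c
  obtain ⟨hk, hhk⟩ := hBc.exists_eq_range ⟨g, subset_FD _ (Set.mem_insert _ _)⟩
  -- recursive sequence of sets
  let E : ℕ → Set (G X) := fun n => Nat.rec D0 (fun k Ek => if hk k ∈ Nb d Ek then Ek else insert (hk k) Ek) n
  have E0 : E 0 = D0 := rfl
  have Es : ∀ k, E (k + 1) = if hk k ∈ Nb d (E k) then E k else insert (hk k) (E k) := fun k => rfl
  have hmono1 : ∀ k, E k ⊆ E (k + 1) := by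
    intro k
    rw [Es]
    split_ifs
    · exact Subset.rfl
    · exact Set.subset_insert _ _
  have hmono : Monotone E := monotone_nat_of_le_succ hmono1
  have hcov : ∀ k, hk k ∈ Nb d (E (k + 1)) := by
    intro k
    rw [Es]
    split_ifs with h
    · exact h
    · exact subset_Nb _ _ (Set.mem_insert _ _)
  have hsub : ∀ k, E k ⊆ FD D0 := by
    intro k
    induction k with
    | zero => rw [E0]; exact subset_FD _
    | succ k ih =>
      rw [Es]
      split_ifs
      · exact ih
      · rw [Set.insert_subset_iff]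
        exact ⟨by rw [hhk]; exact ⟨k, rfl⟩, ih⟩
  have hnew1 : ∀ k, ∀ f ∈ E (k + 1), f ∉ E k → f ∉ Nb d (E k) := by
    intro k f hf hfn
    rw [Es] at hf
    split_ifs at hf with h
    · exact absurd hf hfn
    · rcases hf with rfl | hf
      · exact h
      · exact absurd hf hfn
  have hnew : ∀ k n, ∀ f ∈ E (k + n), f ∉ E k → f ∉ Nb d (E k) := by
    intro k n
    induction n with
    | zero => intro f hf hfn; exact absurd hf hfn
    | succ n ih =>
      intro f hf hfn
      rcases Classical.em (f ∈ E (k + n)) with h | h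
      · exact ih f h hfn
      · have := hnew1 (k + n) f hf h
        exact fun h' => this (Nb_mono d (hmono (Nat.le_add_right k n)) h')
  have hfin : ∀ k, (E k \ D0).Finite := by
    intro k
    induction k with
    | zero => rw [E0]; simp
    | succ k ih =>
      rw [Es]
      split_ifs
      · exact ih
      · refine (ih.insert (hk k)).subset ?_
        rintro f ⟨hf, hfn⟩
        rcases hf with rfl | hf
        · exact Set.mem_insert _ _
        · exact Set.mem_insert_of_mem _ ⟨hf, hfn⟩
  refine ⟨⋃ k, E k, ?_, ?_, ?_, ?_⟩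
  · rw [← E0]; exact Set.subset_iUnion E 0
  · intro h
    by_cases hh : h ∈ FD D0
    · rw [hhk] at hh
      obtain ⟨k, rfl⟩ := hh
      obtain ⟨f, hf, hagr⟩ := hcov k
      obtain ⟨e, he⟩ := hLF (hk k)
      refine ⟨e ∪ d f, ?_⟩
      refine ((he.union (hfin (k + 1))).insert g).subset ?_
      rintro f' ⟨hf', hagr'⟩
      rw [Set.mem_iUnion] at hf'
      obtain ⟨n, hn⟩ := hf'
      have hin : f' ∈ E (k + 1) := by
        by_contra hcon
        have hn' : f' ∈ E (k + 1 + n) := hmono (Nat.le_add_left n (k + 1)) hn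
        exact hnew (k + 1) n f' hn' hcon
          ⟨f, hf, (hagr'.mono Finset.subset_union_right).trans hagr⟩
      by_cases h0 : f' ∈ D0
      · rcases h0 with rfl | h0
        · exact Set.mem_insert _ _
        · exact Set.mem_insert_of_mem _ (Or.inl ⟨h0, hagr'.mono Finset.subset_union_left⟩)
      · exact Set.mem_insert_of_mem _ (Or.inr ⟨hin, h0⟩)
    · by_contra hcon
      push Not at hcon
      apply hh
      have : h ∈ FD (⋃ k, E k) := by
        apply closure_subset_FD
        intro e
        have h1 := hcon e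
        obtain ⟨f, hf, hf'⟩ := (h1).nonempty
        exact ⟨f, hf, hf'⟩
      exact FD_FD (Set.iUnion_subset hsub) this
  · intro h hh
    have : h ∈ FD D0 := FD_FD (Set.iUnion_subset hsub) hh
    rw [hhk] at this
    obtain ⟨k, rfl⟩ := this
    exact Nb_mono d (Set.subset_iUnion E (k + 1)) (hcov k)
  · intro f hf hfD hfN
    rw [Set.mem_iUnion] at hf
    obtain ⟨n, hn⟩ := hf
    by_cases h0 : f ∈ D0
    · rcases h0 with rfl | h0
      · exact hg hfN
      · exact hfD h0
    · have := hnew 0 n f (by rwa [Nat.zero_add]) h0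
      exact this (Nb_mono d (by rw [E0]; exact Set.subset_insert _ _) hfN)

/-- Baturov's theorem for two-valued functions -/
theorem exists_uncountable_LF [CompactSpace X] (d : G X → Finset X)
    (hd : ∀ B : Set (G X), B.Countable → ∃ g, g ∉ Nb d B) :
    ∃ A : Set (G X), ¬ A.Countable ∧ LF A := by
  classical
  let T := {D : Set (G X) // LF D ∧ FD D ⊆ Nb d D}
  let r : T → T → Prop := fun D D' => D.1 ⊆ D'.1 ∧ ∀ f ∈ D'.1, f ∉ D.1 → f ∉ Nb d D.1
  have hLF0 : LF (∅ : Set (G X)) := fun h => ⟨∅, by simp⟩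
  obtain ⟨g0, hg0⟩ := hd ∅ Set.countable_empty
  obtain ⟨D0, _, hD0a, hD0b, _⟩ := ext_step d ∅ Set.countable_empty hLF0 g0 hg0
  have htrans : ∀ {a b c : T}, r a b → r b c → r a c := by
    intro a b c hab hbc
    refine ⟨hab.1.trans hbc.1, ?_⟩
    intro f hf hfa
    by_cases hfb : f ∈ b.1
    · exact hab.2 f hfb hfa
    · exact fun h => hbc.2 f hf hfb (Nb_mono d hab.1 h)
  obtain ⟨m, hm⟩ := exists_maximal_of_chains_bounded (r := r) (by
    intro c hc
    by_cases hne : c.Nonempty
    · have hdir : ∀ F : Finset (G X), (F : Set (G X)) ⊆ (⋃ D ∈ c, (D.1 : Set (G X))) →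
          ∃ D ∈ c, (F : Set (G X)) ⊆ D.1 := by
        intro F
        induction F using Finset.induction_on with
        | empty =>
          intro _
          obtain ⟨D, hD⟩ := hne
          exact ⟨D, hD, by simp⟩
        | insert a F _ ih =>
          intro hF
          rw [Finset.coe_insert, Set.insert_subset_iff] at hF
          obtain ⟨D, hD, hFD⟩ := ih hF.2
          have h1 := hF.1
          rw [Set.mem_iUnion₂] at h1
          obtain ⟨D', hD', ha⟩ := h1
          rw [Finset.coe_insert]
          by_cases heq : D = D'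
          · subst heq
            exact ⟨D, hD, Set.insert_subset_iff.2 ⟨ha, hFD⟩⟩
          · rcases hc hD hD' heq with h | h
            · exact ⟨D', hD', Set.insert_subset_iff.2 ⟨ha, hFD.trans h.1⟩⟩
            · exact ⟨D, hD, Set.insert_subset_iff.2 ⟨h.1 ha, hFD⟩⟩
      have hFDU : ∀ h, h ∈ FD (⋃ D ∈ c, (D.1 : Set (G X))) → ∃ D ∈ c, h ∈ FD D.1 := by
        rintro h ⟨F, hF, hdet⟩
        obtain ⟨D, hD, hFD⟩ := hdir F hF
        exact ⟨D, hD, F, hFD, hdet⟩
      have hkey : ∀ D ∈ c, ∀ f ∈ (⋃ D ∈ c, (D.1 : Set (G X))), f ∉ D.1 → f ∉ Nb d D.1 := by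
        intro D hD f hf hfD
        rw [Set.mem_iUnion₂] at hf
        obtain ⟨D', hD', hf'⟩ := hf
        by_cases heq : D = D'
        · subst heq; exact absurd hf' hfD
        · rcases hc hD hD' heq with h | h
          · exact h.2 f hf' hfD
          · exact absurd (h.1 hf') hfD
      refine ⟨⟨⋃ D ∈ c, (D.1 : Set (G X)), ?_, ?_⟩, ?_⟩
      · intro h
        by_cases hh : h ∈ FD (⋃ D ∈ c, (D.1 : Set (G X)))
        · obtain ⟨D, hD, hhD⟩ := hFDU h hh
          obtain ⟨f, hf, hagr⟩ := D.2.2 hhD
          obtain ⟨e, he⟩ := D.2.1 h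
          refine ⟨e ∪ d f, he.subset ?_⟩
          rintro f' ⟨hf', hagr'⟩
          refine ⟨?_, hagr'.mono Finset.subset_union_left⟩
          by_contra hcon
          exact hkey D hD f' hf' hcon ⟨f, hf, (hagr'.mono Finset.subset_union_right).trans hagr⟩
        · by_contra hcon
          push Not at hcon
          apply hh
          apply closure_subset_FD
          intro e
          obtain ⟨f, hf, hf'⟩ := (hcon e).nonempty
          exact ⟨f, hf, hf'⟩
      · intro h hh
        obtain ⟨D, hD, hhD⟩ := hFDU h hh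
        exact Nb_mono d (Set.subset_biUnion_of_mem (u := fun D : T => (D.1 : Set (G X))) hD) (D.2.2 hhD)
      · intro D hD
        exact ⟨Set.subset_biUnion_of_mem (u := fun D : T => (D.1 : Set (G X))) hD, hkey D hD⟩
    · rw [Set.not_nonempty_iff_eq_empty] at hne
      subst hne
      exact ⟨⟨D0, hD0a, hD0b⟩, fun a ha => absurd ha (Set.notMem_empty a)⟩) htrans
  refine ⟨m.1, ?_, m.2.1⟩
  intro hcount
  obtain ⟨g, hg⟩ := hd m.1 hcount
  obtain ⟨D', h1, h2, h3, h4⟩ := ext_step d m.1 hcount m.2.1 g hg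
  have := hm ⟨D', h2, h3⟩ ⟨(Set.subset_insert _ _).trans h1, h4⟩
  exact hg (subset_Nb d _ (this.1 (h1 (Set.mem_insert _ _))))




theorem final_step [CompactSpace X] [T2Space X] [TotallyDisconnectedSpace X]
    [NormalSpace (G X)] {I : Type} (f : I × I → G X) (hf : Function.Injective f)
    (hCD : CD (Set.range f)) (β : I → I)
    (h : ∀ S : Set X, S.Countable → ∃ α : I, ∀ e : Finset X, (e : Set X) ⊆ S →
      ∃ β', β' ≠ β α ∧ Agr e (f (α, β')) (f (α, β α))) : False := by
  set P : Set (G X) := Set.range (fun α => f (α, β α)) with hP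
  set Q : Set (G X) := {g | ∃ α β', β' ≠ β α ∧ g = f (α, β')} with hQ
  have hPc : IsClosed P := hCD.isClosed (by rintro _ ⟨α, rfl⟩; exact ⟨_, rfl⟩)
  have hQc : IsClosed Q := hCD.isClosed (by rintro _ ⟨α, β', _, rfl⟩; exact ⟨_, rfl⟩)
  have hPQ : Disjoint P Q := by
    rw [Set.disjoint_left]
    rintro _ ⟨α, rfl⟩ ⟨α', β', hne, heq⟩
    have := hf heq
    rw [Prod.mk.injEq] at this
    obtain ⟨rfl, h2⟩ := this
    exact hne h2.symm
  obtain ⟨S, hS, hsep⟩ := criterion hPc hQc hPQ
  obtain ⟨α, hα⟩ := h S hS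
  obtain ⟨e, heS, he⟩ := hsep (f (α, β α)) ⟨α, rfl⟩
  obtain ⟨β', hne, hagr⟩ := hα e heS
  exact he _ ⟨α, β', hne, rfl⟩ hagr

/-- Case of few points. -/
theorem caseS [CompactSpace X] [T2Space X] [TotallyDisconnectedSpace X]
    [NormalSpace (G X)] {I : Type} [LinearOrder I] (hI : ¬ (Set.univ : Set I).Countable)
    (hIc : ∀ i : I, (Set.Iic i).Countable)
    (f : I × I → G X) (hf : Function.Injective f)
    (hCD : CD (Set.range f)) (x : I → X)
    (hx : ∀ y, ∃ i, ∀ p, (f p).1 y = (f p).1 (x i)) : False := by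
  classical
  -- choose `β`
  have hβ : ∀ α : I, ∃ b : I, ∀ e : Finset I, (e : Set I) ⊆ Set.Iic α →
      ∃ b', b' ≠ b ∧ ∀ γ ∈ e, (f (α, b')).1 (x γ) = (f (α, b)).1 (x γ) := by
    intro α
    by_contra hcon
    push Not at hcon
    choose e he hne using hcon
    apply hI
    have hctb : Countable (Set.Iic α) := (hIc α).to_subtype
    have hctb2 : {s : Finset I | (s : Set I) ⊆ Set.Iic α}.Countable := by
      have h1 := (countable_ofPred_finite_subset (hIc α)).preimage
        (f := fun F : Finset I => (F : Set I)) Finset.coe_injective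
      refine h1.mono ?_
      intro F hF
      exact ⟨F.finite_toSet, hF⟩
    have hctb3 := hctb2.prod hctb2
    refine Set.MapsTo.countable_of_injOn (f := fun b => (e b, (e b).filter (fun γ => (f (α, b)).1 (x γ) = true)))
      (t := {s : Finset I | (s : Set I) ⊆ Set.Iic α} ×ˢ {s : Finset I | (s : Set I) ⊆ Set.Iic α}) ?_ ?_ hctb3
    · intro b _
      refine ⟨he b, ?_⟩
      intro γ hγ
      simp only [Finset.coe_filter, mem_ofPred_eq] at hγ
      exact he b hγ.1
    · intro b _ b' _ hbb
      by_contra hbne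
      simp only [Prod.mk.injEq] at hbb
      obtain ⟨h1, h2⟩ := hbb
      obtain ⟨γ, hγ, hγne⟩ := hne b b' (fun h => hbne h.symm)
      apply hγne
      have h3 : ∀ c : I, γ ∈ e c → (γ ∈ (e c).filter (fun γ => (f (α, c)).1 (x γ) = true) ↔
          (f (α, c)).1 (x γ) = true) := by
        intro c hc
        rw [Finset.mem_filter]
        exact ⟨fun h => h.2, fun h => ⟨hc, h⟩⟩
      have h4 := h3 b hγ
      have h5 := h3 b' (by rw [← h1]; exact hγ)
      rw [h2] at h4
      have h6 := h4.symm.trans h5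
      cases hb : (f (α, b)).1 (x γ) with
      | true => exact h6.1 hb
      | false =>
        cases hb' : (f (α, b')).1 (x γ) with
        | false => rfl
        | true => exact absurd (h6.2 hb') (by rw [hb]; simp)
  choose β hβ using hβ
  refine final_step f hf hCD β ?_
  intro S hS
  choose i hi using hx
  have hcount : (⋃ s ∈ S, Set.Iic (i s)).Countable := hS.biUnion (fun s _ => hIc (i s))
  have hex : ∃ α, α ∉ ⋃ s ∈ S, Set.Iic (i s) := by
    by_contra hcon
    push Not at hcon
    exact hI (hcount.mono (fun a _ => hcon a))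
  obtain ⟨α, hα⟩ := hex
  refine ⟨α, fun e he => ?_⟩
  obtain ⟨b', hb', hagr⟩ := hβ α (e.image i) (by
    intro γ hγ
    rw [Finset.mem_coe, Finset.mem_image] at hγ
    obtain ⟨s, hs, rfl⟩ := hγ
    by_contra hcon
    apply hα
    rw [Set.mem_iUnion₂]
    refine ⟨s, he hs, ?_⟩
    rw [Set.mem_Iic] at hcon ⊢
    exact le_of_not_ge hcon)
  refine ⟨b', hb', fun s hs => ?_⟩
  rw [hi s, hi s]
  exact hagr (i s) (Finset.mem_image_of_mem i hs)

/-- add the indicator of a clopen set -/
noncomputable def tw (f : G X) (V : Set X) (hV : IsClopen V) : G X :=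
  ⟨fun x => xor (f.1 x) (V.boolIndicator x), by
    have h1 := f.2
    have h2 := (continuous_boolIndicator_iff_isClopen V).2 hV
    exact (continuous_of_discreteTopology (f := fun p : Bool × Bool => xor p.1 p.2)).comp
      (h1.prodMk h2)⟩

lemma tw_of_notMem (f : G X) (V : Set X) (hV : IsClopen V) {x : X} (hx : x ∉ V) :
    (tw f V hV).1 x = f.1 x := by
  simp [tw, Set.boolIndicator, hx]

lemma tw_of_mem (f : G X) (V : Set X) (hV : IsClopen V) {x : X} (hx : x ∈ V) :
    (tw f V hV).1 x = ! f.1 x := by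
  simp [tw, Set.boolIndicator, hx]

lemma tw_agr_iff (f g : G X) (V : Set X) (hV : IsClopen V) (e : Finset X) :
    Agr e (tw f V hV) g ↔ Agr e f (tw g V hV) := by
  have key : ∀ x, (tw f V hV).1 x = g.1 x ↔ f.1 x = (tw g V hV).1 x := by
    intro x
    by_cases hx : x ∈ V
    · rw [tw_of_mem _ _ _ hx, tw_of_mem _ _ _ hx]
      cases f.1 x <;> cases g.1 x <;> simp
    · rw [tw_of_notMem _ _ _ hx, tw_of_notMem _ _ _ hx]
  exact ⟨fun h x hx => (key x).1 (h x hx), fun h x hx => (key x).2 (h x hx)⟩

lemma tw_tw (f g : G X) (V : Set X) (hV : IsClopen V) (h : f = tw g V hV) :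
    tw f V hV = g := by
  subst h
  apply Subtype.ext
  funext x
  by_cases hx : x ∈ V
  · rw [tw_of_mem _ _ _ hx, tw_of_mem _ _ _ hx]; simp
  · rw [tw_of_notMem _ _ _ hx, tw_of_notMem _ _ _ hx]

/-- interleaving -/
def jn (t u : ℕ → Bool) : ℕ → Bool := fun n => if n % 2 = 0 then t (n / 2) else u (n / 2)

lemma jn_even (t u : ℕ → Bool) (n : ℕ) : jn t u (2 * n) = t n := by
  simp [jn]

lemma jn_odd (t u : ℕ → Bool) (n : ℕ) : jn t u (2 * n + 1) = u n := by
  have h1 : (2 * n + 1) % 2 = 1 := by omega
  have h2 : (2 * n + 1) / 2 = n := by omega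
  simp [jn, h1, h2]

lemma jn_inj {t u t' u' : ℕ → Bool} (h : jn t u = jn t' u') : t = t' ∧ u = u' := by
  constructor
  · funext n; rw [← jn_even t u, ← jn_even t' u', h]
  · funext n; rw [← jn_odd t u, ← jn_odd t' u', h]

/-- cylinder -/
def Cy (ψ : X → ℕ → Bool) (z : ℕ → Bool) (n : ℕ) : Set X := {x | ∀ i < n, ψ x i = z i}

lemma Cy_clopen (ψ : X → ℕ → Bool) (hψ : Continuous ψ) (z : ℕ → Bool) (n : ℕ) :
    IsClopen (Cy ψ z n) := by
  have : Cy ψ z n = ⋂ i ∈ Finset.range n, {x | ψ x i = z i} := by
    ext x; simp [Cy]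
  rw [this]
  apply isClopen_biInter_finset
  intro i _
  have hc : Continuous (fun x => ψ x i) := (continuous_apply i).comp hψ
  exact (isClopen_discrete {z i}).preimage hc

theorem caseN [CompactSpace X] [T2Space X] [TotallyDisconnectedSpace X]
    [NormalSpace (G X)] {I : Type} (hI : ¬ (Set.univ : Set I).Countable)
    (f : I × I → G X) (hf : Function.Injective f)
    (hCD : CD (Set.range f)) (ψ : X → ℕ → Bool) (hψ : Continuous ψ)
    (hsurj : Function.Surjective ψ) (t : I → ℕ → Bool) (ht : Function.Injective t)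
    (ρ : I × ℕ → ℕ → Bool) (hρ : Function.Injective ρ) : False := by
  classical
  -- isolating sets
  have hd : ∀ p : I × I, ∃ d : Finset X, ∀ p', Agr d (f p') (f p) → p' = p := by
    intro p
    obtain ⟨e, he⟩ := hCD (f p)
    exact ⟨e, fun p' hp' => hf (he _ ⟨p', rfl⟩ hp')⟩
  choose d hd using hd
  -- choice of the reals
  have hu : ∀ p : I × I, ∃ k : ℕ, ∀ x ∈ d p, ψ x ≠ jn (t p.1) (ρ (p.2, k)) := by
    intro p
    by_contra hcon
    push Not at hcon
    choose x hx hxe using hcon
    have hinj : Function.Injective x := by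
      intro k k' hkk
      have h1 := hxe k
      have h2 := hxe k'
      rw [hkk] at h1
      have h3 := (jn_inj (h1.symm.trans h2)).2
      have := hρ h3
      simpa using this
    exact Set.infinite_range_of_injective hinj ((d p).finite_toSet.subset (by
      rintro _ ⟨k, rfl⟩; exact hx k))
  choose k hk using hu
  set r : I × I → ℕ → Bool := fun p => jn (t p.1) (ρ (p.2, k p)) with hr
  have hrinj : ∀ p p', r p = r p' → p = p' := by
    intro p p' h
    obtain ⟨h1, h2⟩ := jn_inj h
    have h3 := ht h1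
    have h4 := hρ h2
    rw [Prod.mk.injEq] at h4
    exact Prod.ext h3 h4.1
  -- the sets Q^α
  let Qs : I → Set (G X) := fun α => {g | (∃ b n, g = tw (f (α, b)) (Cy ψ (r (α, b)) n)
    (Cy_clopen ψ hψ _ n)) ∧ g ∉ Set.range f}
  -- a point not in a finite set is separated by a cylinder
  have hcyl : ∀ (z : ℕ → Bool) (e : Finset X), (∀ x ∈ e, ψ x ≠ z) → ∃ n, ∀ m, n ≤ m →
      ∀ x ∈ e, x ∉ Cy ψ z m := by
    intro z e
    induction e using Finset.induction_on with
    | empty => intro _; exact ⟨0, by simp⟩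
    | insert a e _ ih =>
      intro h
      obtain ⟨n, hn⟩ := ih (fun x hx => h x (Finset.mem_insert_of_mem hx))
      have h1 := h a (Finset.mem_insert_self _ _)
      have h2 : ∃ i, ψ a i ≠ z i := by
        by_contra hcon
        push Not at hcon
        exact h1 (funext hcon)
      obtain ⟨i, hi⟩ := h2
      refine ⟨max n (i + 1), fun m hm x hx => ?_⟩
      rw [Finset.mem_insert] at hx
      rcases hx with rfl | hx
      · intro hxm
        exact hi (hxm i (by omega))
      · exact hn m (by omega) x hx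
  by_cases hcase : ∃ α, ¬ {b | f (α, b) ∉ closure (Qs α)}.Countable
  · -- Case 1
    obtain ⟨α, hα⟩ := hcase
    set B := {b | f (α, b) ∉ closure (Qs α)} with hB
    have hPc : IsClosed ((fun b => f (α, b)) '' B) := hCD.isClosed (by
      rintro _ ⟨b, _, rfl⟩; exact ⟨_, rfl⟩)
    have hdisj : Disjoint ((fun b => f (α, b)) '' B) (closure (Qs α)) := by
      rw [Set.disjoint_left]
      rintro _ ⟨b, hb, rfl⟩
      exact hb
    obtain ⟨S, hS, hsep⟩ := criterion hPc isClosed_closure hdisj
    have hex : ∃ b ∈ B, r (α, b) ∉ ψ '' S := by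
      by_contra hcon
      push Not at hcon
      apply hα
      refine Set.MapsTo.countable_of_injOn (f := fun b => r (α, b)) (t := ψ '' S) hcon ?_ (hS.image ψ)
      intro b _ b' _ hbb
      have := hrinj _ _ hbb
      simpa using this
    obtain ⟨b, hb, hbS⟩ := hex
    obtain ⟨e, heS, he⟩ := hsep (f (α, b)) ⟨b, hb, rfl⟩
    obtain ⟨n, hn⟩ := hcyl (r (α, b)) (e ∪ d (α, b)) (by
      intro x hx
      rw [Finset.mem_union] at hx
      rcases hx with hx | hx
      · intro h
        exact hbS ⟨x, heS hx, h⟩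
      · exact hk (α, b) x hx)
    have hn' := hn n le_rfl
    set g := tw (f (α, b)) (Cy ψ (r (α, b)) n) (Cy_clopen ψ hψ _ n) with hg
    have hagr : Agr (e ∪ d (α, b)) g (f (α, b)) := by
      intro x hx
      rw [hg, tw_of_notMem _ _ _ (hn' x hx)]
    have hgn : g ∉ Set.range f := by
      rintro ⟨p', hp'⟩
      have h1 : p' = (α, b) := by
        apply hd
        rw [hp']
        exact hagr.mono Finset.subset_union_right
      rw [h1] at hp'
      obtain ⟨x, hx⟩ := hsurj (r (α, b))
      have h2 : x ∈ Cy ψ (r (α, b)) n := fun i _ => by rw [hx]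
      have h3 : (f (α, b)).1 x = g.1 x := by rw [hp']
      rw [hg, tw_of_mem _ _ _ h2] at h3
      cases h : (f (α, b)).1 x <;> rw [h] at h3 <;> simp at h3
    exact he g (subset_closure ⟨⟨b, n, rfl⟩, hgn⟩) (hagr.mono Finset.subset_union_left)
  · -- Case 2
    push Not at hcase
    have hβ : ∀ α, ∃ b, f (α, b) ∈ closure (Qs α) := by
      intro α
      by_contra hcon
      push Not at hcon
      exact hI ((hcase α).mono (fun b _ => hcon b))
    choose β hβ using hβ
    have hclaim : ∀ α, ∃ u : ℕ → Bool, ∀ e : Finset X, (∀ x ∈ e, ψ x ≠ jn (t α) u) →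
        ∃ b', b' ≠ β α ∧ Agr e (f (α, b')) (f (α, β α)) := by
      intro α
      by_contra hcon
      push Not at hcon
      choose eu he1 he2 using hcon
      choose nu hnu using fun u => hcyl (jn (t α) u) (eu u) (he1 u)
      -- open cover of the Cantor set
      have hopen : ∀ u : ℕ → Bool, IsOpen {u' : ℕ → Bool | ∀ i < nu u, jn (t α) u' i = jn (t α) u i} := by
        intro u
        have : {u' : ℕ → Bool | ∀ i < nu u, jn (t α) u' i = jn (t α) u i} =
            ⋂ i ∈ Finset.range (nu u), {u' : ℕ → Bool | jn (t α) u' i = jn (t α) u i} := by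
          ext u'; simp
        rw [this]
        apply isOpen_biInter_finset
        intro i _
        have hc : Continuous (fun u' : ℕ → Bool => jn (t α) u' i) := by
          unfold jn
          split_ifs
          · exact continuous_const
          · exact continuous_apply _
        exact (isOpen_discrete {jn (t α) u i}).preimage hc
      obtain ⟨U, hU⟩ := (isCompact_univ (X := ℕ → Bool)).elim_finite_subcover _ hopen (by
        intro u _
        rw [Set.mem_iUnion]
        exact ⟨u, fun i _ => rfl⟩)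
      -- the finite set
      obtain ⟨xs, hxs⟩ := hsurj (r (α, β α))
      choose dV hdV using hCD
      let ext : (n : ℕ) → (Fin n → Bool) → ℕ → Bool := fun n s i => if h : i < n then s ⟨i, h⟩ else false
      let e3 : Finset X := (Finset.range (U.sup nu)).biUnion fun n =>
        (Finset.univ : Finset (Fin n → Bool)).biUnion fun s =>
          dV (tw (f (α, β α)) (Cy ψ (ext n s) n) (Cy_clopen ψ hψ _ n))
      obtain ⟨g, hgQ, hagr⟩ := mem_closure_iff_agr.1 (hβ α) (U.biUnion eu ∪ {xs} ∪ e3)
      obtain ⟨⟨b, n, rfl⟩, hgn⟩ := hgQ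
      have hu0 := hU (Set.mem_univ (ρ (b, k (α, b))))
      rw [Set.mem_iUnion₂] at hu0
      obtain ⟨u, huU, hu⟩ := hu0
      by_cases hn : nu u ≤ n
      · -- far: contradiction with `he2`
        have h1 : Agr (eu u) (f (α, b)) (f (α, β α)) := by
          intro x hx
          rw [← hagr x (Finset.mem_union_left _ (Finset.mem_union_left _
            (Finset.mem_biUnion.2 ⟨u, huU, hx⟩)))]
          rw [tw_of_notMem]
          intro hxc
          refine hnu u (nu u) le_rfl x hx ?_
          intro i hi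
          rw [hxc i (by omega)]
          exact hu i hi
        have h2 : b = β α := by
          by_contra hne
          exact he2 u b hne h1
        subst h2
        have h3 := hagr xs (Finset.mem_union_left _ (Finset.mem_union_right _ (Finset.mem_singleton_self _)))
        rw [tw_of_mem _ _ _ (fun i _ => by rw [hxs])] at h3
        cases h : (f (α, β α)).1 xs <;> rw [h] at h3 <;> simp at h3
      · push Not at hn
        have hCy : Cy ψ (r (α, b)) n = Cy ψ (ext n (fun i => r (α, b) i)) n := by
          ext x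
          constructor
          · intro h i hi
            rw [h i hi]
            simp [ext, hi]
          · intro h i hi
            rw [h i hi]
            simp [ext, hi]
        have hn2 : n ∈ Finset.range (U.sup nu) :=
          Finset.mem_range.2 (lt_of_lt_of_le hn (Finset.le_sup huU))
        have htw : tw (f (α, β α)) (Cy ψ (r (α, b)) n) (Cy_clopen ψ hψ _ n) =
            tw (f (α, β α)) (Cy ψ (ext n (fun i => r (α, b) i)) n) (Cy_clopen ψ hψ _ n) := by
          congr 1
        have h1 : Agr (dV (tw (f (α, β α)) (Cy ψ (r (α, b)) n) (Cy_clopen ψ hψ _ n)))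
            (f (α, b)) (tw (f (α, β α)) (Cy ψ (r (α, b)) n) (Cy_clopen ψ hψ _ n)) := by
          rw [← tw_agr_iff]
          apply hagr.mono
          rw [htw]
          refine Finset.Subset.trans ?_ Finset.subset_union_right
          intro x hx
          rw [Finset.mem_biUnion]
          refine ⟨n, hn2, ?_⟩
          rw [Finset.mem_biUnion]
          exact ⟨(fun i : Fin n => r (α, b) i), Finset.mem_univ _, hx⟩
        have h2 := hdV _ _ ⟨(α, b), rfl⟩ h1
        have h3 := tw_tw _ _ _ _ h2
        exact hgn ⟨(α, β α), h3.symm⟩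
    choose u hu using hclaim
    refine final_step f hf hCD β ?_
    intro S hS
    have hex : ∃ α, jn (t α) (u α) ∉ ψ '' S := by
      by_contra hcon
      push Not at hcon
      apply hI
      refine Set.MapsTo.countable_of_injOn (f := fun α => jn (t α) (u α)) (t := ψ '' S)
        (fun α _ => hcon α) ?_ (hS.image ψ)
      intro b _ b' _ hbb
      exact ht (jn_inj hbb).1
    obtain ⟨α, hα⟩ := hex
    refine ⟨α, fun e he => hu α e ?_⟩
    intro x hx h
    exact hα ⟨x, he hx, h⟩




/-- `V` is covered by `I` many classes -/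
def Small {J : Type} (I : Type) (f : J → G X) (V : Set X) : Prop :=
  ∃ x : I → X, ∀ y ∈ V, ∃ i, ∀ p, (f p).1 y = (f p).1 (x i)

lemma small_union {J K I : Type} (f : J → G X) (V : K → Set X) (π : I → K × I)
    (hπ : Function.Surjective π) (h : ∀ k, Small I f (V k)) : Small I f (⋃ k, V k) := by
  choose x hx using h
  refine ⟨fun i => x (π i).1 (π i).2, fun y hy => ?_⟩
  rw [Set.mem_iUnion] at hy
  obtain ⟨k, hk⟩ := hy
  obtain ⟨i, hi⟩ := hx k y hk
  obtain ⟨i', hi'⟩ := hπ (k, i)
  refine ⟨i', ?_⟩
  show ∀ p, (f p).1 y = (f p).1 (x (π i').1 (π i').2)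
  rw [hi']
  exact hi

/-- box around a point -/
def Box {J : Type} (f : J → G X) (F : Finset J) (y : X) : Set X := {z | ∀ p ∈ F, (f p).1 z = (f p).1 y}

lemma mem_box {J : Type} (f : J → G X) (F : Finset J) (y : X) : y ∈ Box f F y := fun _ _ => rfl

lemma box_eq {J : Type} {f : J → G X} {F : Finset J} {y z : X} (h : z ∈ Box f F y) :
    Box f F y = Box f F z := by
  ext w
  exact ⟨fun hw p hp => (hw p hp).trans (h p hp).symm, fun hw p hp => (hw p hp).trans (h p hp)⟩

theorem dichotomy [CompactSpace X] [Nonempty X] {J I : Type} [Nonempty I] [Nonempty J] (f : J → G X)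
    (π1 : I → (Finset J × Finset J) × I) (hπ1 : Function.Surjective π1)
    (π2 : I → Bool × I) (hπ2 : Function.Surjective π2) :
    (∃ ψ : X → ℕ → Bool, Continuous ψ ∧ Function.Surjective ψ) ∨ Small I f Set.univ := by
  classical
  set W : Set X := {y | ∀ F : Finset J, ¬ Small I f (Box f F y)} with hW
  -- the union of all small boxes is small
  let BT : Finset J × Finset J → Set X := fun k => {z | ∀ p ∈ k.1, ((f p).1 z = true ↔ p ∈ k.2)}
  have hBT : ∀ (F : Finset J) (y : X), Box f F y = BT (F, F.filter (fun p => (f p).1 y = true)) := by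
    intro F y
    ext z
    constructor
    · intro h p hp
      rw [Finset.mem_filter, h p hp]
      exact ⟨fun h' => ⟨hp, h'⟩, fun h' => h'.2⟩
    · intro h p hp
      have h1 := h p hp
      rw [Finset.mem_filter] at h1
      simp only [hp, true_and] at h1
      cases hz : (f p).1 z with
      | true => exact (h1.1 hz).symm
      | false =>
        cases hy : (f p).1 y with
        | false => rfl
        | true => exact absurd (h1.2 hy) (by rw [hz]; simp)
  let x0 : I → X := fun _ => Classical.arbitrary X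
  have hsm : Small I f (⋃ k, if Small I f (BT k) then BT k else ∅) := by
    apply small_union f _ π1 hπ1
    intro k
    split_ifs with h
    · exact h
    · exact ⟨x0, fun y hy => absurd hy (Set.notMem_empty y)⟩
  have hcov : Wᶜ ⊆ ⋃ k, if Small I f (BT k) then BT k else ∅ := by
    intro y hy
    rw [hW, Set.mem_compl_iff, Set.mem_ofPred_eq] at hy
    push Not at hy
    obtain ⟨F, hF⟩ := hy
    rw [Set.mem_iUnion]
    refine ⟨(F, F.filter (fun p => (f p).1 y = true)), ?_⟩
    rw [← hBT, if_pos hF]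
    exact mem_box f F y
  by_cases hWne : W.Nonempty
  swap
  · right
    rw [Set.not_nonempty_iff_eq_empty] at hWne
    rw [hWne, Set.compl_empty] at hcov
    obtain ⟨x, hx⟩ := hsm
    exact ⟨x, fun y _ => hx y (hcov (Set.mem_univ y))⟩
  left
  -- splitting
  have hsplit : ∀ (F : Finset J) (y : X), (Box f F y ∩ W).Nonempty →
      ∃ p, ∀ b : Bool, ∃ z ∈ Box f F y ∩ W, (f p).1 z = b := by
    rintro F y ⟨z0, hz0, hz0W⟩
    by_contra hcon
    push Not at hcon
    have heq : ∀ z ∈ Box f F y ∩ W, ∀ p, (f p).1 z = (f p).1 z0 := by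
      intro z hz p
      obtain ⟨b, hb⟩ := hcon p
      have h1 := hb z hz
      have h2 := hb z0 ⟨hz0, hz0W⟩
      cases hzz : (f p).1 z <;> cases hzz0 : (f p).1 z0 <;> cases b <;> simp_all
    apply hz0W F
    rw [← box_eq hz0]
    -- union of two small sets
    have h2 : Small I f (⋃ b : Bool, if b = true then (⋃ k, if Small I f (BT k) then BT k else ∅)
        else {z | ∀ p, (f p).1 z = (f p).1 z0}) := by
      apply small_union f _ π2 hπ2
      intro b
      split_ifs
      · exact hsm
      · exact ⟨fun _ => z0, fun y hy => ⟨Classical.arbitrary I, hy⟩⟩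
    obtain ⟨x, hx⟩ := h2
    refine ⟨x, fun w hw => hx w ?_⟩
    rw [Set.mem_iUnion]
    by_cases hwW : w ∈ W
    · refine ⟨false, ?_⟩
      rw [if_neg (by simp)]
      exact heq w ⟨hw, hwW⟩
    · refine ⟨true, ?_⟩
      rw [if_pos rfl]
      exact hcov hwW
  -- the splitting function on sets
  have hsp : ∀ V : Set X, ∃ p : J, (∃ F y, V = Box f F y ∧ (Box f F y ∩ W).Nonempty) →
      ∀ b : Bool, ∃ z ∈ V ∩ W, (f p).1 z = b := by
    intro V
    by_cases h : ∃ F y, V = Box f F y ∧ (Box f F y ∩ W).Nonempty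
    · obtain ⟨F, y, rfl, hne⟩ := h
      obtain ⟨p, hp⟩ := hsplit F y hne
      exact ⟨p, fun _ => hp⟩
    · exact ⟨Classical.arbitrary J, fun h' => absurd h' h⟩
  choose sp hsp using hsp
  let st' : (ℕ → Bool) → ℕ → Set X := fun z n => Nat.rec Set.univ
    (fun k V => V ∩ {y | (f (sp V)).1 y = z k}) n
  have st'0 : ∀ z, st' z 0 = Set.univ := fun _ => rfl
  have st's : ∀ z n, st' z (n + 1) = st' z n ∩ {y | (f (sp (st' z n))).1 y = z n} := fun _ _ => rfl
  let st : X → ℕ → Set X := fun x n => Nat.rec Set.univ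
    (fun _ V => V ∩ {y | (f (sp V)).1 y = (f (sp V)).1 x}) n
  have st0 : ∀ x, st x 0 = Set.univ := fun _ => rfl
  have sts : ∀ x n, st x (n + 1) = st x n ∩ {y | (f (sp (st x n))).1 y = (f (sp (st x n))).1 x} :=
    fun _ _ => rfl
  let ψ : X → ℕ → Bool := fun x n => (f (sp (st x n))).1 x
  have hopen : ∀ x n, IsOpen (st x n) := by
    intro x n
    induction n with
    | zero => rw [st0]; exact isOpen_univ
    | succ n ih =>
      rw [sts]
      exact ih.inter ((isOpen_discrete {(f (sp (st x n))).1 x}).preimage (f (sp (st x n))).2)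
  have hself : ∀ x n, x ∈ st x n := by
    intro x n
    induction n with
    | zero => rw [st0]; trivial
    | succ n ih => rw [sts]; exact ⟨ih, rfl⟩
  have hst : ∀ x y n, y ∈ st x n → st y n = st x n := by
    intro x y n
    induction n with
    | zero => intro _; rw [st0, st0]
    | succ n ih =>
      intro hy
      rw [sts] at hy
      rw [sts, sts, ih hy.1]
      have h2 : (f (sp (st x n))).1 y = (f (sp (st x n))).1 x := hy.2
      rw [h2]
  refine ⟨ψ, ?_, ?_⟩
  · refine continuous_pi fun n => ?_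
    apply IsLocallyConstant.continuous
    rw [IsLocallyConstant.iff_exists_open]
    intro x
    refine ⟨st x (n + 1), hopen x (n + 1), hself x (n + 1), fun y hy => ?_⟩
    rw [sts] at hy
    show (f (sp (st y n))).1 y = (f (sp (st x n))).1 x
    rw [hst x y n hy.1]
    exact hy.2
  · intro z
    have hbox : ∀ n, ∃ F y, st' z n = Box f F y ∧ (Box f F y ∩ W).Nonempty := by
      intro n
      induction n with
      | zero =>
        obtain ⟨w, hw⟩ := hWne
        have h1 : st' z 0 = Box f ∅ w := by
          rw [st'0]; ext y; simp [Box]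
        exact ⟨∅, w, h1, w, mem_box f ∅ w, hw⟩
      | succ n ih =>
        obtain ⟨F, y, hV, hne⟩ := ih
        obtain ⟨w, hw, hwz⟩ := hsp (st' z n) ⟨F, y, hV, hne⟩ (z n)
        refine ⟨insert (sp (st' z n)) F, w, ?_, w, mem_box _ _ _, hw.2⟩
        rw [st's]
        have hV' : st' z n = Box f F w := by
          rw [hV]; exact box_eq (by rw [← hV]; exact hw.1)
        set p := sp (st' z n) with hp
        rw [hV']
        ext v
        constructor
        · rintro ⟨h1, h2⟩ q hq
          rw [Finset.mem_insert] at hq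
          rcases hq with rfl | hq
          · rw [hwz]; exact h2
          · exact h1 q hq
        · intro h
          refine ⟨fun q hq => h q (Finset.mem_insert_of_mem hq), ?_⟩
          have := h p (Finset.mem_insert_self _ _)
          rw [hwz] at this
          exact this
    have hclosed : ∀ n, IsClosed (st' z n) := by
      intro n
      induction n with
      | zero => rw [st'0]; exact isClosed_univ
      | succ n ih =>
        rw [st's]
        exact ih.inter ((isClosed_discrete {z n}).preimage (f (sp (st' z n))).2)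
    have hne : (⋂ n, st' z n).Nonempty := by
      apply IsCompact.nonempty_iInter_of_sequence_nonempty_isCompact_isClosed
      · intro n; rw [st's]; exact Set.inter_subset_left
      · intro n
        obtain ⟨F, y, hV, w, hw, _⟩ := hbox n
        exact ⟨w, by rw [hV]; exact hw⟩
      · rw [st'0]; exact isCompact_univ
      · exact hclosed
    obtain ⟨x, hx⟩ := hne
    rw [Set.mem_iInter] at hx
    refine ⟨x, ?_⟩
    have hind : ∀ n, st x n = st' z n := by
      intro n
      induction n with
      | zero => rfl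
      | succ n ih =>
        have h1 := hx (n + 1)
        rw [st's] at h1
        have h2 : (f (sp (st' z n))).1 x = z n := h1.2
        rw [sts, st's, ih, h2]
    funext n
    have h1 := hx (n + 1)
    rw [st's] at h1
    show (f (sp (st x n))).1 x = z n
    rw [hind n]
    exact h1.2

open Cardinal in
theorem main (X : Type) [TopologicalSpace X] [CompactSpace X] [T2Space X]
    [TotallyDisconnectedSpace X] (hN : NormalSpace {f : X → Bool // Continuous f}) :
    LindelofSpace {f : X → Bool // Continuous f} := by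
  classical
  have hN' : NormalSpace (G X) := hN
  constructor
  apply isLindelof_of_countable_subcover
  intro ι U hU hcov
  -- neighbourhood assignment
  have h1 : ∀ g : G X, ∃ i, g ∈ U i := by
    intro g
    have := hcov (Set.mem_univ g)
    rwa [Set.mem_iUnion] at this
  choose i hi using h1
  choose d hd using fun g => exists_agr_of_isOpen (hU (i g)) (hi g)
  by_cases hB : ∃ B : Set (G X), B.Countable ∧ ∀ g, g ∈ Nb d B
  · obtain ⟨B, hBc, hB⟩ := hB
    refine ⟨i '' B, hBc.image i, ?_⟩
    intro g _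
    obtain ⟨h, hh, hagr⟩ := hB g
    rw [Set.mem_iUnion₂]
    exact ⟨i h, ⟨h, hh, rfl⟩, hd h g hagr⟩
  exfalso
  push Not at hB
  obtain ⟨A, hA, hLF⟩ := exists_uncountable_LF d hB
  have hCD := hLF.cd
  -- the index type
  let I : Type := (ℵ₁ : Cardinal.{0}).ord.ToType
  have hIcard : #I = ℵ₁ := mk_ord_toType _
  have hIinf : ℵ₀ ≤ #I := by rw [hIcard]; exact aleph0_lt_aleph_one.le
  have : Infinite I := infinite_iff.2 hIinf
  have hI : ¬ (Set.univ : Set I).Countable := by
    rw [countable_iff_lt_aleph_one, mk_univ, hIcard]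
    exact lt_irrefl _
  have hIc : ∀ i : I, (Set.Iic i).Countable := by
    intro i
    have h1 : (Set.Iio i).Countable := by
      rw [countable_iff_lt_aleph_one]
      exact mk_Iio_toType_ord_lt i
    have h2 : Set.Iic i = insert i (Set.Iio i) := by
      ext a; simp [le_iff_eq_or_lt]
    rw [h2]
    exact h1.insert i
  have hA2 : ℵ₁ ≤ #A := by
    by_contra hcon
    push Not at hcon
    exact hA ((countable_iff_lt_aleph_one A).2 hcon)
  have hII : #(I × I) = ℵ₁ := by
    rw [mk_prod, lift_id, hIcard]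
    exact mul_eq_self aleph0_lt_aleph_one.le
  obtain ⟨j⟩ := (Cardinal.le_def _ _).1 (hII.le.trans hA2)
  let f : I × I → G X := fun p => (j p).1
  have hf : Function.Injective f := fun p p' h => j.injective (Subtype.ext h)
  have hfCD : CD (Set.range f) := by
    intro h
    obtain ⟨e, he⟩ := hCD h
    refine ⟨e, ?_⟩
    rintro _ ⟨p, rfl⟩ hagr
    exact he _ (j p).2 hagr
  have hX : Nonempty X := by
    by_contra hcon
    rw [not_nonempty_iff] at hcon
    have p1 : I := Classical.arbitrary I
    obtain ⟨p2, hp2⟩ := exists_ne p1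
    have : f (p1, p1) = f (p2, p1) := Subtype.ext (funext fun x => (hcon.false x).elim)
    have := hf this
    rw [Prod.mk.injEq] at this
    exact hp2 this.1.symm
  have : Infinite (I × I) := infinite_iff.2 (by rw [hII]; exact aleph0_lt_aleph_one.le)
  have hsurj : ∀ K : Type, #K ≤ ℵ₁ → Nonempty K → ∃ π : I → K × I, Function.Surjective π := by
    intro K hK hKne
    have h1 : #(K × I) ≤ #I := by
      rw [mk_prod, lift_id, lift_id, hIcard]
      calc #K * ℵ₁ ≤ ℵ₁ * ℵ₁ := mul_le_mul_left hK _
        _ = ℵ₁ := mul_eq_self aleph0_lt_aleph_one.le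
    obtain ⟨e⟩ := (Cardinal.le_def _ _).1 h1
    exact ⟨Function.invFun e, Function.invFun_surjective e.injective⟩
  obtain ⟨π1, hπ1⟩ := hsurj (Finset (I × I) × Finset (I × I)) (by
    rw [mk_prod, lift_id, mk_finset_of_infinite, hII]
    exact (mul_eq_self aleph0_lt_aleph_one.le).le) inferInstance
  obtain ⟨π2, hπ2⟩ := hsurj Bool (by
    rw [mk_bool]
    exact (natCast_lt_aleph0 (n := 2)).le.trans aleph0_lt_aleph_one.le) inferInstance
  rcases dichotomy f π1 hπ1 π2 hπ2 with ⟨ψ, hψ, hψs⟩ | hsmall
  · have hc : #(ℕ → Bool) = 𝔠 := by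
      rw [← power_def, mk_bool, mk_nat, two_power_aleph0]
    have ht : #I ≤ #(ℕ → Bool) := by
      rw [hc, hIcard]; exact aleph_one_le_continuum
    obtain ⟨t⟩ := (Cardinal.le_def _ _).1 ht
    have hρ : #(I × ℕ) ≤ #(ℕ → Bool) := by
      rw [hc, mk_prod, lift_id, lift_id, hIcard, mk_nat]
      rw [mul_aleph0_eq aleph0_lt_aleph_one.le]
      exact aleph_one_le_continuum
    obtain ⟨ρ⟩ := (Cardinal.le_def _ _).1 hρ
    exact caseN hI f hf hfCD ψ hψ hψs t t.injective ρ ρ.injective
  · obtain ⟨x, hx⟩ := hsmall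
    exact caseS hI hIc f hf hfCD x (fun y => hx y (Set.mem_univ y))


end Pool.Agent.CpD
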